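import Pool.Agent.H44.GT.Targets

/-!
# gd_modules, row M_PF: the distribution function of a density is an invariant measure
-/

set_option autoImplicit false

namespace Pool.Agent.H68.GD

open MeasureTheory Set
open Pool.Agent.H44.DU

section

variable {n : ℕ} {S : Surf n} {t : ℝ} {f : Fin n → ℝ → ℝ}

theorem v_range (S : Surf n) (t : ℝ) (i : Fin n) (k : Fin 3) :
    S.xl t i ≤ xi t (S.v i k) ∧ xi t (S.v i k) ≤ S.xr t i := by
  unfold Surf.xl Surf.xr
  fin_cases k
  · exact ⟨min_le_left _ _, le_max_left _ _⟩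
  · exact ⟨(min_le_right _ _).trans (min_le_left _ _),
      (le_max_left _ _).trans (le_max_right _ _)⟩
  · exact ⟨(min_le_right _ _).trans (min_le_right _ _),
      (le_max_right _ _).trans (le_max_right _ _)⟩

theorem ld_int (h : S.LD t f) (i : Fin n) :
    IntegrableOn (f i) (Ioo (S.xl t i) (S.xr t i)) := by
  have h1 : IntegrableOn (fun x => 1 + f i x ^ 2) (Ioo (S.xl t i) (S.xr t i)) :=
    (integrableOn_const (by simp)).add (h.sq i)
  refine h1.mono' (h.meas i).aestronglyMeasurable (Filter.Eventually.of_forall fun x => ?_)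
  rw [Real.norm_eq_abs, abs_of_nonneg (h.nonneg i x)]
  nlinarith [h.nonneg i x, sq_nonneg (f i x - 1)]

/-- the density, zero outside the range -/
noncomputable def gg (S : Surf n) (t : ℝ) (f : Fin n → ℝ → ℝ) (i : Fin n) : ℝ → ℝ :=
  (Ioo (S.xl t i) (S.xr t i)).indicator (f i)

theorem gg_int (h : S.LD t f) (i : Fin n) : Integrable (gg S t f i) :=
  (integrable_indicator_iff measurableSet_Ioo).2 (ld_int h i)

theorem pf_sub (h : S.LD t f) (i : Fin n) (x y : ℝ) :
    S.pf t f i y - S.pf t f i x = ∫ u in x..y, gg S t f i u := by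
  have e : ∀ z, S.pf t f i z = ∫ u in Iic z, gg S t f i u := by
    intro z
    unfold Surf.pf gg
    rw [setIntegral_indicator measurableSet_Ioo, inter_comm,
      setIntegral_congr_set (t := Iic z ∩ Ioo (S.xl t i) (S.xr t i))]
    exact (Iio_ae_eq_Iic (a := z)).inter (Filter.EventuallyEq.refl _ _)
  rw [e, e, intervalIntegral.integral_Iic_sub_Iic (gg_int h i).integrableOn
    (gg_int h i).integrableOn]

theorem pf_M_PF' (h : S.LD t f) : S.NM t (S.pf t f) := by
  have hii : ∀ i a b, IntervalIntegrable (gg S t f i) volume a b :=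
    fun i a b => (gg_int h i).intervalIntegrable
  have hin : ∀ i u, S.xl t i < u → u < S.xr t i → gg S t f i u = f i u := fun i u h1 h2 =>
    indicator_of_mem (show u ∈ Ioo _ _ from ⟨h1, h2⟩) _
  have hnn : ∀ i u, 0 ≤ gg S t f i u := fun i u => indicator_nonneg (fun _ _ => h.nonneg i _) u
  refine ⟨⟨?_, ?_, ?_⟩, ?_, ?_⟩
  · intro i x y hxy
    have h1 := pf_sub h i x y
    have h2 : 0 ≤ ∫ u in x..y, gg S t f i u :=
      intervalIntegral.integral_nonneg hxy fun u _ => hnn i u
    linarith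
  · intro i
    have h1 : S.pf t f i = fun y => S.pf t f i 0 + ∫ u in (0 : ℝ)..y, gg S t f i u := by
      funext y
      rw [← pf_sub h i 0 y]
      ring
    rw [h1]
    exact continuous_const.add (intervalIntegral.continuous_primitive (hii i) 0)
  · intro r x y hx hxy hy
    rw [pf_sub h, pf_sub h]
    have ha := S.a_pos r
    have e1 : ∫ u in S.mv t r x..S.mv t r y, gg S t f (S.gl r).1 u =
        S.a r * ∫ u in x..y, gg S t f (S.gl r).1 (S.mv t r u) := by
      have h1 := intervalIntegral.smul_integral_comp_mul_add (a := x) (b := y)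
        (gg S t f (S.gl r).1) (S.a r) (xi t (S.b r))
      rw [smul_eq_mul] at h1
      exact h1.symm
    rw [e1, ← intervalIntegral.integral_const_mul]
    refine intervalIntegral.integral_congr_ae ?_
    have hne : ∀ᵐ u : ℝ, u ≠ y := by
      rw [ae_iff]
      simp
    filter_upwards [h.glue r, hne] with u hu huy hmem
    rw [uIoc_of_le hxy] at hmem
    have hu1 : xi t (S.Q r) < u := hx.trans_lt hmem.1
    have hu2 : u < xi t (S.P r) := (lt_of_le_of_ne hmem.2 huy).trans_le hy
    have h3 := hu ⟨hu1, hu2⟩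
    have e2 : gg S t f r.1 u = f r.1 u :=
      hin _ _ ((v_range S t r.1 (r.2 + 1)).1.trans_lt hu1)
        (hu2.trans_le (v_range S t r.1 r.2).2)
    have h4 : S.InI t (S.gl r) (S.mv t r u) := (S.inI_gl_iff t r u).2 ⟨hu1, hu2⟩
    have e3 : gg S t f (S.gl r).1 (S.mv t r u) = f (S.gl r).1 (S.mv t r u) :=
      hin _ _ ((v_range S t (S.gl r).1 (S.gl r).2).1.trans_lt h4.1)
        (h4.2.trans_le (v_range S t (S.gl r).1 ((S.gl r).2 + 1)).2)
    rw [e2, e3, h3]
    field_simp
  · intro i x hx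
    unfold Surf.pf
    rw [show Ioo (S.xl t i) (S.xr t i) ∩ Iio x = ∅ from ?_, setIntegral_empty]
    ext u
    simp only [mem_inter_iff, mem_Ioo, mem_Iio, mem_empty_iff_false, iff_false]
    rintro ⟨⟨h1, _⟩, h2⟩
    linarith
  · intro i x hx
    unfold Surf.pf
    congr 2
    ext u
    simp only [mem_inter_iff, mem_Ioo, mem_Iio]
    constructor
    · rintro ⟨⟨h1, h3⟩, h2⟩
      exact ⟨⟨h1, h3⟩, h3⟩
    · rintro ⟨⟨h1, h3⟩, h2⟩
      exact ⟨⟨h1, h3⟩, h3.trans_le hx⟩

end

theorem pf_M_PF : M_PF := fun _ _ _ _ h => pf_M_PF' h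

end Pool.Agent.H68.GD
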