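import Pool.Agent.H44.GT.Targets
import Pool.Agent.H44.DU.Basic2

/-!
# gd_modules, row M_POS: an invariant measure of a minimal foliation has full support
-/

set_option autoImplicit false

namespace Pool.Agent.H68.GD

open MeasureTheory Set
open Pool.Agent.H44.DU

section

variable {n : ℕ} {S : Surf n} {t : ℝ} {p : Fin n → ℝ → ℝ}

/-- Transport of the measure along a word. -/
theorem im_run (hp : S.IM t p) (r0 : Side n) : ∀ (w : List (Side n)) (s : Side n) (x x' : ℝ),
    s ∈ (w ++ [r0]).head? → x ≤ x' → S.Run t (w ++ [r0]) x → S.Run t (w ++ [r0]) x' →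
    p s.1 x' - p s.1 x = p r0.1 (S.g t w x') - p r0.1 (S.g t w x)
  | [], s, x, x', hs, _, _, _ => by
    have h : r0 = s := by simpa using hs
    rw [S.g_nil, S.g_nil, h]
  | r :: w, s, x, x', hs, hx, h1, h2 => by
    have h : r = s := by simpa using hs
    rw [← h]
    obtain ⟨a1, a2, a3⟩ := h1
    obtain ⟨b1, _, b3⟩ := h2
    obtain ⟨r', hr'⟩ : ∃ r', r' ∈ (w ++ [r0]).head? := by
      cases w with
      | nil => exact ⟨r0, by simp⟩
      | cons c w => exact ⟨c, by simp⟩
    rw [S.g_cons, S.g_cons, ← im_run hp r0 w r' _ _ hr' ((S.mv_le_iff t r).2 hx) a3 b3,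
      ← a2 r' hr', hp.glue r x x' a1.1.le hx b1.2.le]

/-- A coordinate in the range of a triangle, different from the coordinates of the vertices, is in
the range of an exit side. -/
theorem exit_exists (i : Fin n) (z : ℝ) (h1 : S.xl t i < z) (h2 : z < S.xr t i)
    (h3 : ∀ k, z ≠ xi t (S.v i k)) : ∃ r : Side n, r.1 = i ∧ S.InJ t r z := by
  unfold Surf.xl at h1
  unfold Surf.xr at h2
  rw [min_lt_iff, min_lt_iff] at h1
  rw [lt_max_iff, lt_max_iff] at h2
  have g0 : xi t (S.v i 1) < z → z < xi t (S.v i 0) → ∃ r : Side n, r.1 = i ∧ S.InJ t r z :=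
    fun a b => ⟨(i, 0), rfl, a, b⟩
  have g1 : xi t (S.v i 2) < z → z < xi t (S.v i 1) → ∃ r : Side n, r.1 = i ∧ S.InJ t r z :=
    fun a b => ⟨(i, 1), rfl, a, b⟩
  have g2 : xi t (S.v i 0) < z → z < xi t (S.v i 2) → ∃ r : Side n, r.1 = i ∧ S.InJ t r z :=
    fun a b => ⟨(i, 2), rfl, a, b⟩
  rcases (h3 0).lt_or_gt with a0 | a0 <;> rcases (h3 1).lt_or_gt with a1 | a1 <;>
    rcases (h3 2).lt_or_gt with a2 | a2
  · exfalso
    rcases h1 with h | h | h <;> linarith
  · exact g1 a2 a1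
  · exact g0 a1 a0
  · exact g0 a1 a0
  · exact g2 a0 a2
  · exact g1 a2 a1
  · exact g2 a0 a2
  · exfalso
    rcases h2 with h | h | h <;> linarith

/-- The next state. -/
noncomputable def nxt (S : Surf n) (t : ℝ) (q : Side n × ℝ) : Side n × ℝ :=
  open Classical in
  if S.mv t q.1 q.2 < xi t (S.O (S.gl q.1)) then (nx (nx (S.gl q.1)), S.mv t q.1 q.2)
  else (nx (S.gl q.1), S.mv t q.1 q.2)

theorem nxt_tr {q : Side n × ℝ} (h : S.InJ t q.1 q.2)
    (h2 : S.mv t q.1 q.2 ≠ xi t (S.O (S.gl q.1))) : S.Tr t q (nxt S t q) := by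
  have h3 : S.InI t (S.gl q.1) (S.mv t q.1 q.2) := (S.inI_gl_iff t q.1 q.2).2 h
  unfold nxt
  split_ifs with h4
  · exact ⟨h, S.exit_left h3 h4, rfl, rfl⟩
  · exact ⟨h, S.exit_right h3 (lt_of_le_of_ne (not_lt.1 h4) h2.symm), rfl, rfl⟩

/-- A leaf which does not hit a vertex is infinite. -/
theorem leaf_inf {r : Side n} {x : ℝ} (h : S.InJ t r x)
    (h2 : ∀ (w : List (Side n)) (c : Side n), S.g t w x ≠ xi t (S.P c)) :
    ∃ y : ℕ → Side n × ℝ, y 0 = (r, x) ∧ ∀ k, S.Tr t (y k) (y (k + 1)) := by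
  obtain ⟨y, hy⟩ : ∃ y : ℕ → Side n × ℝ, y = fun k => (nxt S t)^[k] (r, x) := ⟨_, rfl⟩
  have hs : ∀ k, y (k + 1) = nxt S t (y k) := fun k => by
    rw [hy]
    exact Function.iterate_succ_apply' _ _ _
  have h0 : y 0 = (r, x) := by rw [hy]; rfl
  have key : ∀ k, S.InJ t (y k).1 (y k).2 ∧ ∃ w, (y k).2 = S.g t w x := by
    intro k
    induction k with
    | zero =>
      rw [h0]
      exact ⟨h, [], (S.g_nil t x).symm⟩
    | succ k ih =>
      obtain ⟨i1, w, hw⟩ := ih
      have e : S.mv t (y k).1 (y k).2 = S.g t (w ++ [(y k).1]) x := by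
        rw [S.g_append, S.g_single, ← hw]
      have i2 : S.mv t (y k).1 (y k).2 ≠ xi t (S.O (S.gl (y k).1)) := by
        rw [e, ← S.P_nx_nx]
        exact h2 _ _
      have i3 := nxt_tr i1 i2
      rw [← hs] at i3
      exact ⟨i3.2.1, _, i3.2.2.2.trans e⟩
  refine ⟨y, h0, fun k => ?_⟩
  obtain ⟨i1, w, hw⟩ := key k
  rw [hs]
  refine nxt_tr i1 ?_
  have e : S.mv t (y k).1 (y k).2 = S.g t (w ++ [(y k).1]) x := by
    rw [S.g_append, S.g_single, ← hw]
  rw [e, ← S.P_nx_nx]
  exact h2 _ _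

/-- The coordinates of the leaves which hit a vertex. -/
def Cv (S : Surf n) (t : ℝ) : Set ℝ :=
  ⋃ q : List (Side n) × Side n, {x | S.g t q.1 x = xi t (S.P q.2)}

theorem cv_countable : (Cv S t).Countable := by
  refine countable_iUnion fun q => Set.Subsingleton.countable ?_
  intro x hx y hy
  have h : S.g t q.1 x = S.g t q.1 y := (show S.g t q.1 x = _ from hx).trans
    (show S.g t q.1 y = _ from hy).symm
  exact le_antisymm ((S.g_le_iff t q.1).1 h.le) ((S.g_le_iff t q.1).1 h.ge)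

/-- The measure of an exit side is zero, if there is an interval of measure zero. -/
theorem exit_const (hmin : S.TMin t) (hp : S.IM t p) {r0 : Side n} {v1 v2 : ℝ} (hv : v1 < v2)
    (hV : ∀ x, v1 < x → x < v2 → S.InJ t r0 x)
    (hc : ∀ x y, v1 < x → x < v2 → v1 < y → y < v2 → p r0.1 x = p r0.1 y) (r : Side n)
    (hr : xi t (S.Q r) ≤ xi t (S.P r)) : p r.1 (xi t (S.Q r)) = p r.1 (xi t (S.P r)) := by
  rcases hr.eq_or_lt with h0 | h0
  · rw [h0]
  set I : Set ℝ := Ioo (xi t (S.Q r)) (xi t (S.P r)) with hI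
  -- the image is countable
  have hcount : (p r.1 '' I).Countable := by
    have hsub : p r.1 '' I ⊆ p r.1 '' (Cv S t) ∪
        ⋃ w : List (Side n), p r.1 '' {x | S.Run t (w ++ [r0]) x ∧ r ∈ (w ++ [r0]).head? ∧
          v1 < S.g t w x ∧ S.g t w x < v2} := by
      rintro _ ⟨x, hx, rfl⟩
      by_cases hxC : x ∈ Cv S t
      · exact Or.inl ⟨x, hxC, rfl⟩
      · right
        have h2 : ∀ (w : List (Side n)) (c : Side n), S.g t w x ≠ xi t (S.P c) := by
          intro w c h
          exact hxC (mem_iUnion.2 ⟨(w, c), h⟩)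
        obtain ⟨y, y0, hy⟩ := leaf_inf (show S.InJ t r x from hx) h2
        have hd := hmin.fwd y hy r0 ((v1 + v2) / 2) (hV _ (by linarith) (by linarith))
        obtain ⟨k, _, hk1, hk2⟩ := hd ((v2 - v1) / 2) (by linarith) 0
        rw [abs_lt] at hk2
        obtain ⟨c1, c2, _⟩ := S.chain_run hy 0 (k + 1)
        obtain ⟨_, d2, _⟩ := S.chain_run hy 0 k
        have hy0 : (y 0).2 = x := by rw [y0]
        simp only [zero_add] at c1 c2 d2 hk1 hk2
        have e : (List.range (k + 1)).map (fun j => (y j).1) =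
            (List.range k).map (fun j => (y j).1) ++ [r0] := by
          rw [List.range_succ, List.map_append, List.map_singleton]
          rw [hk1]
        rw [e, hy0] at c1
        rw [hy0] at d2
        refine mem_iUnion.2 ⟨(List.range k).map (fun j => (y j).1), x, ⟨c1, ?_, ?_, ?_⟩, rfl⟩
        · rw [← e, List.range_succ_eq_map, List.map_cons, List.head?_cons, y0]
          rfl
        · rw [d2]
          linarith [hk2.1]
        · rw [d2]
          linarith [hk2.2]
    refine Countable.mono hsub (Countable.union (cv_countable.image _) ?_)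
    refine countable_iUnion fun w => Set.Subsingleton.countable ?_
    rintro _ ⟨x, ⟨x1, x2, x3, x4⟩, rfl⟩ _ ⟨y, ⟨y1, y2, y3, y4⟩, rfl⟩
    rcases le_total x y with h | h
    · have h1 := im_run hp r0 w r x y x2 h x1 y1
      rw [hc _ _ y3 y4 x3 x4, sub_self] at h1
      linarith
    · have h1 := im_run hp r0 w r y x x2 h y1 x1
      rw [hc _ _ x3 x4 y3 y4, sub_self] at h1
      linarith
  have hconn : IsPreconnected (p r.1 '' I) :=
    isPreconnected_Ioo.image _ (hp.cont r.1).continuousOn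
  have hsing : (p r.1 '' I).Subsingleton := by
    intro a ha b hb
    by_contra hab
    wlog hlt : a < b generalizing a b
    · exact this hb ha (Ne.symm hab) (lt_of_le_of_ne (not_lt.1 hlt) (Ne.symm hab))
    have h1 : Icc a b ⊆ p r.1 '' I := hconn.Icc_subset ha hb
    have h2 : volume (Icc a b) = 0 := (hcount.mono h1).measure_zero volume
    rw [Real.volume_Icc, ENNReal.ofReal_eq_zero] at h2
    linarith
  set m : ℝ := (xi t (S.Q r) + xi t (S.P r)) / 2
  have hm : m ∈ I := ⟨by simp only [m]; linarith, by simp only [m]; linarith⟩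
  have heq : EqOn (p r.1) (fun _ => p r.1 m) I := fun x hx => hsing ⟨x, hx, rfl⟩ ⟨m, hm, rfl⟩
  have heq2 := heq.closure (hp.cont r.1) continuous_const
  rw [hI, closure_Ioo h0.ne] at heq2
  rw [heq2 (left_mem_Icc.2 hr), heq2 (right_mem_Icc.2 hr)]

theorem pf_M_POS' (hmin : S.TMin t) (hp : S.IM t p)
    (hx : ∃ i x y, S.xl t i ≤ x ∧ x ≤ y ∧ y ≤ S.xr t i ∧ p i x < p i y) : S.SInc t p := by
  intro i0 x0 y0 h1 h2 h3
  by_contra hcon
  have hconst : ∀ x y, x0 ≤ x → x ≤ y0 → x0 ≤ y → y ≤ y0 → p i0 x = p i0 y := by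
    intro x y a1 a2 b1 b2
    have c1 := hp.mono i0 a1
    have c2 := hp.mono i0 a2
    have c3 := hp.mono i0 b1
    have c4 := hp.mono i0 b2
    linarith [not_lt.1 hcon]
  -- a point which is not the coordinate of a vertex
  obtain ⟨z, hz1, hz2⟩ : ∃ z ∈ Ioo x0 y0, z ∉ range (fun k => xi t (S.v i0 k)) := by
    by_contra hno
    push Not at hno
    have h4 : (Ioo x0 y0).Finite := (finite_range _).subset hno
    exact (Ioo_infinite h2) h4
  obtain ⟨r0, hr0, hz3⟩ := exit_exists i0 z (h1.trans_lt hz1.1) (hz1.2.trans_le h3)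
    fun k h => hz2 ⟨k, h.symm⟩
  -- the interval
  have hA : max x0 (xi t (S.Q r0)) < z := max_lt hz1.1 hz3.1
  have hB : z < min y0 (xi t (S.P r0)) := lt_min hz1.2 hz3.2
  have hexit := exit_const (v1 := max x0 (xi t (S.Q r0))) (v2 := min y0 (xi t (S.P r0))) hmin hp
    (hA.trans hB)
    (fun x a b => ⟨(le_max_right _ _).trans_lt a, b.trans_le (min_le_right _ _)⟩)
    (fun x y a b c d => by
      rw [hr0]
      exact hconst x y ((le_max_left _ _).trans a.le) (b.le.trans (min_le_left _ _))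
        ((le_max_left _ _).trans c.le) (d.le.trans (min_le_left _ _)))
  -- all triangles
  obtain ⟨i, x, y, g1, g2, g3, g4⟩ := hx
  have step : ∀ k : Fin 3, p i (xi t (S.v i k)) ≤ p i (xi t (S.v i (k + 1))) := by
    intro k
    rcases le_total (xi t (S.v i k)) (xi t (S.v i (k + 1))) with h | h
    · exact hp.mono i h
    · exact (hexit (i, k) h).ge
  have s0 := step 0
  have s1 := step 1
  have s2 := step 2
  have e0 : (0 : Fin 3) + 1 = 1 := rfl
  have e1 : (1 : Fin 3) + 1 = 2 := rfl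
  have e2 : (2 : Fin 3) + 1 = 0 := rfl
  rw [e0] at s0
  rw [e1] at s1
  rw [e2] at s2
  have l1 : p i (S.xl t i) = p i (xi t (S.v i 0)) := by
    unfold Surf.xl
    rw [(hp.mono i).map_min, (hp.mono i).map_min]
    have a1 : p i (xi t (S.v i 1)) = p i (xi t (S.v i 0)) := by linarith
    have a2 : p i (xi t (S.v i 2)) = p i (xi t (S.v i 0)) := by linarith
    rw [a1, a2, min_self, min_self]
  have l2 : p i (S.xr t i) = p i (xi t (S.v i 0)) := by
    unfold Surf.xr
    rw [(hp.mono i).map_max, (hp.mono i).map_max]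
    have a1 : p i (xi t (S.v i 1)) = p i (xi t (S.v i 0)) := by linarith
    have a2 : p i (xi t (S.v i 2)) = p i (xi t (S.v i 0)) := by linarith
    rw [a1, a2, max_self, max_self]
  have k1 := hp.mono i g1
  have k2 := hp.mono i g3
  linarith

end

theorem pf_M_POS : M_POS := fun _ _ _ _ _ hmin hp hx => pf_M_POS' hmin hp hx

end Pool.Agent.H68.GD
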