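import Pool.Agent.H44.GT.Targets2
import Pool.Agent.H68.GD.M_PF
import Pool.Agent.H68.GD.M_POS

/-!
# gd_modules, row E_UB: bounded scales give a density
-/

set_option autoImplicit false

namespace Pool.Agent.H68.GD

open MeasureTheory Set Filter
open Pool.Agent.H44.DU
open scoped ENNReal

section

variable {n : ℕ} (S : Surf n) (t : ℝ)

theorem run_meas (w : List (Side n)) : MeasurableSet {x | S.Run t w x} := by
  induction w with
  | nil => exact MeasurableSet.univ
  | cons r w ih =>
    have h1 : MeasurableSet {x : ℝ | S.InJ t r x} := measurableSet_Ioo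
    have h2 : MeasurableSet {x : ℝ | S.Run t w (S.mv t r x)} := by
      refine ih.preimage (f := S.mv t r) ?_
      unfold Surf.mv
      fun_prop
    have e : {x | S.Run t (r :: w) x} = {x : ℝ | S.InJ t r x} ∩
        ({x : ℝ | ∀ r' ∈ w.head?, (S.gl r).1 = r'.1} ∩ {x : ℝ | S.Run t w (S.mv t r x)}) := rfl
    rw [e]
    exact h1.inter ((MeasurableSet.const _).inter h2)

/-- The words of length `k` which start in the triangle `i`. -/
abbrev WK (n k : ℕ) (i : Fin n) : Type :=
  {w : List (Side n) // w.length = k ∧ ∃ r ∈ w.head?, r.1 = i}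

/-- The scale of the word of length `k` realised at `x`. -/
noncomputable def gk (k : ℕ) (i : Fin n) (x : ℝ) : ℝ≥0∞ :=
  ⨆ w : WK n k i, {x | S.Run t w.1 x}.indicator (fun _ => ENNReal.ofReal (S.A w.1)) x

theorem gk_meas (k : ℕ) (i : Fin n) : Measurable (gk S t k i) := by
  unfold gk
  exact Measurable.iSup fun w => measurable_const.indicator (run_meas S t w.1)

theorem gk_le {C : ℝ} (hC : ∀ w x, S.Run t w x → S.A w ≤ C) (k : ℕ) (i : Fin n) (x : ℝ) :
    gk S t k i x ≤ ENNReal.ofReal C := by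
  refine iSup_le fun w => ?_
  by_cases h : x ∈ {x | S.Run t w.1 x}
  · rw [indicator_of_mem h]
    exact ENNReal.ofReal_le_ofReal (hC _ _ h)
  · rw [indicator_of_notMem h]
    exact bot_le

theorem gk_glue {r : Side n} {x : ℝ} (h : S.InJ t r x) (k : ℕ) :
    gk S t (k + 2) r.1 x =
      ENNReal.ofReal (S.a r) * gk S t (k + 1) (S.gl r).1 (S.mv t r x) := by
  unfold gk
  rw [ENNReal.mul_iSup]
  apply le_antisymm
  · refine iSup_le fun w => ?_
    by_cases hw : x ∈ {x | S.Run t w.1 x}
    · rw [indicator_of_mem hw]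
      obtain ⟨w, hl, r', hr', hr1⟩ := w
      cases w with
      | nil => simp at hl
      | cons c w =>
        have hc : c = r' := by simpa using hr'
        have hw2 : S.InJ t c x ∧ (∀ r' ∈ w.head?, (S.gl c).1 = r'.1) ∧
          S.Run t w (S.mv t c x) := hw
        have hcr : c = r := S.exit_unique (by rw [hc, hr1]) hw2.1 h
        subst hcr
        cases w with
        | nil => simp at hl
        | cons d w =>
          have hd : (S.gl c).1 = d.1 := hw2.2.1 d (by simp)
          refine le_trans ?_ (le_iSup _ (⟨d :: w, by simpa using hl, d, by simp, hd.symm⟩ :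
            WK n (k + 1) (S.gl c).1))
          rw [indicator_of_mem (show S.mv t c x ∈ {x | S.Run t (d :: w) x} from hw2.2.2)]
          have e : S.A (c :: d :: w) = S.a c * S.A (d :: w) := rfl
          show ENNReal.ofReal (S.A (c :: d :: w)) ≤ _
          rw [e, ENNReal.ofReal_mul (S.a_pos c).le]
    · rw [indicator_of_notMem hw]
      exact bot_le
  · refine iSup_le fun w => ?_
    obtain ⟨w, hl, r', hr', hr1⟩ := w
    by_cases hw : S.mv t r x ∈ {x | S.Run t w x}
    · rw [indicator_of_mem hw]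
      refine le_trans ?_ (le_iSup _ (⟨r :: w, by simp [hl], r, by simp, rfl⟩ :
        WK n (k + 2) r.1))
      have hrun : S.Run t (r :: w) x := by
        refine ⟨h, fun r'' hr'' => ?_, hw⟩
        have : r'' = r' := Option.mem_unique hr'' hr'
        rw [this, hr1]
      rw [indicator_of_mem (show x ∈ {x | S.Run t (r :: w) x} from hrun)]
      have e : S.A (r :: w) = S.a r * S.A w := rfl
      show _ ≤ ENNReal.ofReal (S.A (r :: w))
      rw [e, ENNReal.ofReal_mul (S.a_pos r).le]
    · rw [indicator_of_notMem hw, mul_zero]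
      exact bot_le

/-- The limit superior of the scales. -/
noncomputable def gl0 (i : Fin n) (x : ℝ) : ℝ≥0∞ := limsup (fun k => gk S t k i x) atTop

theorem gl0_meas (i : Fin n) : Measurable (gl0 S t i) :=
  Measurable.limsup fun k => gk_meas S t k i

theorem gl0_le {C : ℝ} (hC : ∀ w x, S.Run t w x → S.A w ≤ C) (i : Fin n) (x : ℝ) :
    gl0 S t i x ≤ ENNReal.ofReal C :=
  limsup_le_of_le (h := Eventually.of_forall fun k => gk_le S t hC k i x)

theorem gl0_glue {r : Side n} {x : ℝ} (h : S.InJ t r x) :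
    gl0 S t r.1 x = ENNReal.ofReal (S.a r) * gl0 S t (S.gl r).1 (S.mv t r x) := by
  unfold gl0
  rw [← limsup_nat_add (fun k => gk S t k r.1 x) 2,
    ← limsup_nat_add (fun k => gk S t k (S.gl r).1 (S.mv t r x)) 1,
    ← ENNReal.limsup_const_mul_of_ne_top ENNReal.ofReal_ne_top]
  refine congrArg (fun u => limsup u atTop) ?_
  funext k
  exact gk_glue S t h k

theorem gl0_ge {C : ℝ} (hC : ∀ w x, S.Run t w x → C⁻¹ ≤ S.A w) {i : Fin n} {x : ℝ}
    (h1 : S.xl t i < x) (h2 : x < S.xr t i) (h3 : x ∉ Cv S t) :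
    ENNReal.ofReal C⁻¹ ≤ gl0 S t i x := by
  have h4 : ∀ (w : List (Side n)) (c : Side n), S.g t w x ≠ xi t (S.P c) :=
    fun w c h => h3 (mem_iUnion.2 ⟨(w, c), h⟩)
  obtain ⟨r, hr, hx⟩ := exit_exists i x h1 h2 fun k h => h4 [] (i, k) ((S.g_nil t x).trans h)
  obtain ⟨y, y0, hy⟩ := leaf_inf hx h4
  refine le_limsup_of_frequently_le ?_
  refine (eventually_atTop.2 ⟨1, fun k hk => ?_⟩).frequently
  obtain ⟨c1, _, _⟩ := S.chain_run hy 0 k
  have hy0 : (y 0).2 = x := by rw [y0]
  simp only [zero_add] at c1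
  rw [hy0] at c1
  obtain ⟨m, rfl⟩ : ∃ m, k = m + 1 := ⟨k - 1, by omega⟩
  have hh : r ∈ ((List.range (m + 1)).map fun j => (y j).1).head? := by
    rw [List.range_succ_eq_map, List.map_cons, List.head?_cons, y0]
    rfl
  refine le_trans ?_ (le_iSup _ (⟨(List.range (m + 1)).map fun j => (y j).1, by simp, r, hh, hr⟩ :
    WK n (m + 1) i))
  rw [indicator_of_mem (show x ∈ {x | S.Run t ((List.range (m + 1)).map fun j => (y j).1) x}
    from c1)]
  exact ENNReal.ofReal_le_ofReal (hC _ _ c1)

theorem xl_lt_xr (i : Fin n) : S.xl t i < S.xr t i := by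
  by_contra h
  rw [not_lt] at h
  have h0 := v_range S t i 0
  have h1 := v_range S t i 1
  have h2 := v_range S t i 2
  have ho := S.orient i
  simp only [xi] at h0 h1 h2
  simp only [Complex.sub_re, Complex.sub_im] at ho
  have e1 : (S.v i 1).re - (S.v i 0).re = t * ((S.v i 1).im - (S.v i 0).im) := by
    have a1 : (S.v i 1).re - t * (S.v i 1).im = (S.v i 0).re - t * (S.v i 0).im := by
      linarith [h0.1, h0.2, h1.1, h1.2]
    linarith
  have e2 : (S.v i 2).re - (S.v i 0).re = t * ((S.v i 2).im - (S.v i 0).im) := by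
    have a1 : (S.v i 2).re - t * (S.v i 2).im = (S.v i 0).re - t * (S.v i 0).im := by
      linarith [h0.1, h0.2, h2.1, h2.2]
    linarith
  rw [e1, e2] at ho
  linarith

theorem pf_E_UB' (hn : 0 < n) {C : ℝ} (hC0 : 0 < C)
    (hC : ∀ w x, S.Run t w x → C⁻¹ ≤ S.A w ∧ S.A w ≤ C) :
    S.LD t (fun i x => (gl0 S t i x).toReal) := by
  have hle : ∀ i x, (gl0 S t i x).toReal ≤ C := fun i x =>
    ENNReal.toReal_le_of_le_ofReal hC0.le (gl0_le S t (fun w x h => (hC w x h).2) i x)
  have hmeas : ∀ i, Measurable fun x => (gl0 S t i x).toReal :=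
    fun i => (gl0_meas S t i).ennreal_toReal
  have hnn : ∀ i x, 0 ≤ (gl0 S t i x).toReal := fun i x => ENNReal.toReal_nonneg
  refine ⟨hmeas, hnn, ?_, ?_, ?_⟩
  · intro i
    have h1 : IntegrableOn (fun _ : ℝ => C ^ 2) (Ioo (S.xl t i) (S.xr t i)) :=
      integrableOn_const (by simp)
    refine h1.mono' ((hmeas i).pow_const 2).aestronglyMeasurable
      (Eventually.of_forall fun x => ?_)
    rw [Real.norm_eq_abs, abs_of_nonneg (sq_nonneg _)]
    exact pow_le_pow_left₀ (hnn i x) (hle i x) 2
  · intro r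
    refine Eventually.of_forall fun x hx => ?_
    rw [gl0_glue S t hx, ENNReal.toReal_mul, ENNReal.toReal_ofReal (S.a_pos r).le]
    have := (S.a_pos r).ne'
    field_simp
  · refine ⟨⟨0, hn⟩, ?_⟩
    set i : Fin n := ⟨0, hn⟩
    have hint : IntegrableOn (fun x => (gl0 S t i x).toReal) (Ioo (S.xl t i) (S.xr t i)) := by
      have h1 : IntegrableOn (fun _ : ℝ => C) (Ioo (S.xl t i) (S.xr t i)) :=
        integrableOn_const (by simp)
      refine h1.mono' (hmeas i).aestronglyMeasurable (Eventually.of_forall fun x => ?_)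
      rw [Real.norm_eq_abs, abs_of_nonneg (hnn i x)]
      exact hle i x
    have hlt := xl_lt_xr S t i
    have h2 : ∫ _ in Ioo (S.xl t i) (S.xr t i), C⁻¹ ≤
        ∫ x in Ioo (S.xl t i) (S.xr t i), (gl0 S t i x).toReal := by
      refine setIntegral_mono_on_ae (integrableOn_const (by simp)) hint measurableSet_Ioo ?_
      have h3 : ∀ᵐ x : ℝ, x ∉ Cv S t := by
        rw [ae_iff]
        simp only [not_not]
        exact cv_countable.measure_zero volume
      filter_upwards [h3] with x hx hxm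
      have h4 := gl0_ge S t (fun w x h => (hC w x h).1) hxm.1 hxm.2 hx
      have h5 : gl0 S t i x ≠ ∞ :=
        ((gl0_le S t (fun w x h => (hC w x h).2) i x).trans_lt ENNReal.ofReal_lt_top).ne
      exact (ENNReal.ofReal_le_iff_le_toReal h5).1 h4
    refine lt_of_lt_of_le ?_ h2
    rw [setIntegral_const, smul_eq_mul, Measure.real, Real.volume_Ioo,
      ENNReal.toReal_ofReal (by linarith)]
    exact mul_pos (by linarith) (inv_pos.2 hC0)

end

theorem pf_E_UB : E_UB := by
  rintro n S t hn _ ⟨C, hC0, hC⟩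
  exact ⟨_, pf_E_UB' S t hn hC0 hC⟩

end Pool.Agent.H68.GD
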